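import Mathlib
import Pool.Agent.H80.SpechtDefs
import Pool.Agent.H80.Specht

set_option autoImplicit false

namespace Pool.Agent.Results.MP_356e41_ag.NotPolynomial

open Pool.Agent.H80.Specht

theorem result : ¬ ∃ (P : Polynomial ℚ) (N : ℕ), ∀ n : ℕ, N ≤ n →
    (trivialMult (V n) : ℚ) = P.eval (n : ℚ) := by
  simp only [mult_eq]
  exact not_poly

end Pool.Agent.Results.MP_356e41_ag.NotPolynomial
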